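import Mathlib

/-!
Sums of distinct factorials: elementary divisibility facts.
-/

set_option autoImplicit false

open Nat Finset

namespace Pool.Agent.PowFact

/-- the sum of the factorials of the elements of `S` -/
def fsum (S : Finset ℕ) : ℕ := ∑ n ∈ S, n !

/-- `p ^ 2` divides `n!` for `n ≥ 2 p` -/
lemma sq_dvd_factorial {p n : ℕ} (hp : p.Prime) (hn : 2 * p ≤ n) : p ^ 2 ∣ n ! := by
  have h1 : p ! * p ! ∣ (p + p) ! := Nat.factorial_mul_factorial_dvd_factorial_add p p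
  have h2 : p ∣ p ! := (hp.dvd_factorial).2 le_rfl
  have h3 : p ^ 2 ∣ p ! * p ! := by rw [sq]; exact mul_dvd_mul h2 h2
  exact h3.trans (h1.trans (Nat.factorial_dvd_factorial (by omega)))

/-- `c * c` divides `n!` for `n ≥ 2 c` -/
lemma mul_self_dvd_factorial {c n : ℕ} (hc : 0 < c) (hn : 2 * c ≤ n) : c * c ∣ n ! := by
  have h1 : c ! * c ! ∣ (c + c) ! := Nat.factorial_mul_factorial_dvd_factorial_add c c
  have h2 : c ∣ c ! := Nat.dvd_factorial hc le_rfl
  exact (mul_dvd_mul h2 h2).trans (h1.trans (Nat.factorial_dvd_factorial (by omega)))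

lemma padic_factorial_one {p s : ℕ} (hp : p.Prime) (h1 : p ≤ s) (h2 : s < 2 * p) :
    padicValNat p (s !) = 1 := by
  haveI := Fact.mk hp
  have hp2 := hp.two_le
  have hlog : Nat.log p s < 2 := by
    apply Nat.log_lt_of_lt_pow (by omega)
    nlinarith
  rw [padicValNat_factorial hlog]
  have : Finset.Ico 1 2 = {1} := rfl
  rw [this, Finset.sum_singleton, pow_one]
  exact Nat.div_eq_of_lt_le (by omega) (by omega)

/-- the normalised partial sum -/
def T (S : Finset ℕ) (s t : ℕ) : ℕ := ∑ n ∈ S.filter (fun n => n ≤ t), n ! / s !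

lemma T_mul {S : Finset ℕ} {s : ℕ} (hs : ∀ n ∈ S, s ≤ n) (t : ℕ) :
    s ! * T S s t = fsum (S.filter (fun n => n ≤ t)) := by
  rw [T, fsum, Finset.mul_sum]
  refine Finset.sum_congr rfl fun n hn => ?_
  rw [Finset.mem_filter] at hn
  exact Nat.mul_div_cancel' (Nat.factorial_dvd_factorial (hs n hn.1))

lemma T_pos {S : Finset ℕ} {s t : ℕ} (h : s ∈ S) (hst : s ≤ t) : 1 ≤ T S s t := by
  have h1 : s ! / s ! ≤ T S s t :=
    Finset.single_le_sum (f := fun n => n ! / s !) (fun _ _ => Nat.zero_le _)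
      (Finset.mem_filter.2 ⟨h, hst⟩)
  rwa [Nat.div_self (Nat.factorial_pos s)] at h1

lemma factorial_div_le {s l n : ℕ} (h1 : s ≤ n) (h2 : n ≤ s + l) (h3 : l ≤ s)
    (hs : 1 ≤ s) : n ! / s ! ≤ (2 * s) ^ l := by
  obtain ⟨k, rfl⟩ := Nat.exists_eq_add_of_le h1
  rw [← Nat.factorial_mul_ascFactorial, Nat.mul_div_cancel_left _ (Nat.factorial_pos s)]
  calc (s + 1).ascFactorial k ≤ (s + k) ^ k := Nat.ascFactorial_le_pow_add s k
    _ ≤ (2 * s) ^ k := Nat.pow_le_pow_left (by omega) k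
    _ ≤ (2 * s) ^ l := Nat.pow_le_pow_right (by omega) (by omega)

lemma T_le {S : Finset ℕ} {s l : ℕ} (hs : ∀ n ∈ S, s ≤ n) (h3 : l < s) :
    T S s (s + l) ≤ (2 * s) ^ (l + 1) := by
  have h1 : (S.filter (fun n => n ≤ s + l)).card ≤ 2 * s := by
    have h2 : S.filter (fun n => n ≤ s + l) ⊆ Finset.Icc s (s + l) := by
      intro n hn
      rw [Finset.mem_filter] at hn
      exact Finset.mem_Icc.2 ⟨hs n hn.1, hn.2⟩
    refine (Finset.card_le_card h2).trans ?_
    rw [Nat.card_Icc]; omega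
  calc T S s (s + l) ≤ ∑ n ∈ S.filter (fun n => n ≤ s + l), (2 * s) ^ l := by
        refine Finset.sum_le_sum fun n hn => ?_
        rw [Finset.mem_filter] at hn
        exact factorial_div_le (hs n hn.1) hn.2 h3.le (by omega)
    _ = (S.filter (fun n => n ≤ s + l)).card * (2 * s) ^ l := by
        rw [Finset.sum_const, smul_eq_mul]
    _ ≤ (2 * s) * (2 * s) ^ l := Nat.mul_le_mul_right _ h1
    _ = (2 * s) ^ (l + 1) := by ring

lemma fsum_split (S : Finset ℕ) (t : ℕ) :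
    fsum S = fsum (S.filter (fun n => n ≤ t)) + fsum (S.filter (fun n => ¬ n ≤ t)) :=
  (Finset.sum_filter_add_sum_filter_not _ _ _).symm

lemma dvd_T {S : Finset ℕ} {s t p : ℕ} (hp : p.Prime) (hs : ∀ n ∈ S, s ≤ n) (h1 : p ≤ s)
    (h2 : s < 2 * p) (hgap : ∀ n ∈ S, t < n → 2 * p ≤ n) (hd : p ^ 2 ∣ fsum S) :
    p ∣ T S s t := by
  haveI := Fact.mk hp
  rw [fsum_split S t] at hd
  have h3 : p ^ 2 ∣ fsum (S.filter (fun n => ¬ n ≤ t)) := by
    refine Finset.dvd_sum fun n hn => ?_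
    rw [Finset.mem_filter] at hn
    exact sq_dvd_factorial hp (hgap n hn.1 (by omega))
  have h4 : p ^ 2 ∣ s ! * T S s t := by
    rw [T_mul hs]
    exact (Nat.dvd_add_left h3).1 hd
  rcases Nat.eq_zero_or_pos (T S s t) with h0 | h0
  · rw [h0]; exact dvd_zero p
  · have h5 : s ! * T S s t ≠ 0 := Nat.mul_ne_zero (Nat.factorial_ne_zero s) h0.ne'
    rw [padicValNat_dvd_iff_le h5, padicValNat.mul (Nat.factorial_ne_zero s) h0.ne',
      padic_factorial_one hp h1 h2] at h4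
    exact dvd_of_one_le_padicValNat (by omega)

/-- after a very large gap the initial sum is a `k`-th power as well -/
lemma initial_pow {S₀ S₁ : Finset ℕ} {k m : ℕ} (hne : 0 < fsum S₀)
    (h1 : ∀ n ∈ S₁, 2 * fsum S₀ ≤ n) (hm : fsum S₀ + fsum S₁ = m ^ k) :
    ∃ b, fsum S₀ = b ^ k := by
  set c := fsum S₀ with hc
  have h2 : c * c ∣ fsum S₁ :=
    Finset.dvd_sum fun n hn => mul_self_dvd_factorial hne (h1 n hn)
  obtain ⟨X, hX⟩ := h2
  have h3 : c * (1 + c * X) = m ^ k := by rw [← hm, hX]; ring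
  have h4 : Nat.Coprime c (1 + c * X) := by
    rw [Nat.coprime_add_mul_left_right]
    exact Nat.coprime_one_right c
  have h5 : IsUnit (GCDMonoid.gcd c (1 + c * X)) := by
    rw [Nat.isUnit_iff]
    exact h4
  exact exists_eq_pow_of_mul_eq_pow h5 h3

lemma fsum_pos {S : Finset ℕ} (h : S.Nonempty) : 0 < fsum S := by
  obtain ⟨n, hn⟩ := h
  exact lt_of_lt_of_le (Nat.factorial_pos n)
    (Finset.single_le_sum (f := fun n => n !) (fun _ _ => Nat.zero_le _) hn)

lemma fsum_le {S : Finset ℕ} {H : ℕ} (h : ∀ n ∈ S, n ≤ H) : fsum S ≤ (H + 1) * H ! := by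
  have h1 : S ⊆ Finset.range (H + 1) := fun n hn => Finset.mem_range.2 (by have := h n hn; omega)
  calc fsum S ≤ ∑ n ∈ S, H ! :=
        Finset.sum_le_sum fun n hn => Nat.factorial_le (h n hn)
    _ = S.card * H ! := by rw [Finset.sum_const, smul_eq_mul]
    _ ≤ (H + 1) * H ! := by
        apply Nat.mul_le_mul_right
        simpa using Finset.card_le_card h1

end Pool.Agent.PowFact
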