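import Pool.Agent.PowFact.Basic
import Pool.Agent.Lib.ANT.SW

/-!
Sums of distinct factorials with few terms in the first dyadic block are not powerful.
-/

set_option autoImplicit false

open Nat Finset Filter

namespace Pool.Agent.PowFact

/-- sum of `log p` over the primes `p ≤ x` -/
noncomputable def th (x : ℝ) : ℝ := ∑ p ∈ (Finset.Icc 1 ⌊x⌋₊).filter Nat.Prime, Real.log p

lemma th_pnt (m : ℕ) : ∃ C : ℝ, 0 < C ∧ ∀ x : ℝ, 3 ≤ x →
    |th x - x| ≤ C * x / Real.log x ^ m := by
  obtain ⟨C, hC, h⟩ := Pool.Agent.ANT.theta_ap m (ε := 1) one_pos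
  refine ⟨C, hC, fun x hx => ?_⟩
  have h1 := h 1 1 isUnit_one x hx
  have e1 : (Finset.Icc 1 ⌊x⌋₊).filter (fun p : ℕ => p.Prime ∧ (p : ZMod 1) = 1) =
      (Finset.Icc 1 ⌊x⌋₊).filter Nat.Prime := by
    refine Finset.filter_congr fun p _ => ?_
    exact ⟨fun h => h.1, fun h => ⟨h, Subsingleton.elim _ _⟩⟩
  rw [e1] at h1
  simpa [th] using h1

lemma th_diff {a b : ℝ} (ha : 0 ≤ a) (hab : a ≤ b) :
    th b - th a = ∑ p ∈ (Finset.Icc 1 ⌊b⌋₊).filter (fun p : ℕ => p.Prime ∧ a < (p : ℝ)), Real.log p := by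
  have hsub : (Finset.Icc 1 ⌊a⌋₊).filter Nat.Prime ⊆ (Finset.Icc 1 ⌊b⌋₊).filter Nat.Prime := by
    intro p hp
    rw [Finset.mem_filter, Finset.mem_Icc] at hp ⊢
    exact ⟨⟨hp.1.1, hp.1.2.trans (Nat.floor_le_floor hab)⟩, hp.2⟩
  have h1 := Finset.sum_sdiff hsub (f := fun p : ℕ => Real.log p)
  have h2 : (Finset.Icc 1 ⌊b⌋₊).filter Nat.Prime \ (Finset.Icc 1 ⌊a⌋₊).filter Nat.Prime =
      (Finset.Icc 1 ⌊b⌋₊).filter (fun p : ℕ => p.Prime ∧ a < (p : ℝ)) := by
    ext p
    simp only [Finset.mem_sdiff, Finset.mem_filter, Finset.mem_Icc, not_and]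
    constructor
    · rintro ⟨⟨⟨h1, h2⟩, h3⟩, h4⟩
      refine ⟨⟨h1, h2⟩, h3, ?_⟩
      by_contra hc
      push Not at hc
      exact h4 ⟨h1, Nat.le_floor hc⟩ h3
    · rintro ⟨⟨h1, h2⟩, h3, h4⟩
      refine ⟨⟨⟨h1, h2⟩, h3⟩, ?_⟩
      rintro ⟨-, h5⟩
      have := (Nat.le_floor_iff ha).1 h5
      linarith
  rw [h2] at h1
  rw [th, th]
  linarith

lemma ev_cond (K : ℝ) (M : ℕ) : ∃ s₀ : ℕ, ∀ s : ℕ, s₀ ≤ s →
    K ≤ Real.log s ∧ Real.log s ^ M ≤ s := by
  have h1 : Tendsto (fun s : ℕ => Real.log s) atTop atTop :=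
    Real.tendsto_log_atTop.comp tendsto_natCast_atTop_atTop
  have h2 := (Real.isLittleO_pow_log_id_atTop (n := M)).comp_tendsto tendsto_natCast_atTop_atTop
  have h3 := h2.bound (c := 1) one_pos
  obtain ⟨s₀, h⟩ := eventually_atTop.1 ((h1.eventually_ge_atTop K).and h3)
  refine ⟨s₀, fun s hs => ⟨(h s hs).1, ?_⟩⟩
  have h4 := (h s hs).2
  simp only [Function.comp_apply, id, Real.norm_eq_abs, one_mul, Nat.abs_cast] at h4
  exact (le_abs_self _).trans h4

/-- pigeonhole: one of `r` consecutive intervals contains no element -/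
lemma exists_gap {S : Finset ℕ} {s r : ℕ} (hsS : s ∈ S) {L : ℕ → ℝ}
    (hcard : (S.filter (fun n : ℕ => (n : ℝ) ≤ s + L r)).card ≤ r) (hL0 : ∀ i, 0 < L i)
    (hLm : Monotone L) :
    ∃ i < r, ∀ n ∈ S, (s : ℝ) + L i < n → (s : ℝ) + L (i + 1) < n := by
  by_contra hcon
  push Not at hcon
  choose! g hg using hcon
  let f : ℕ → ℕ := fun i => if i = 0 then s else g (i - 1)
  have hf0 : f 0 = s := if_pos rfl
  have hfs : ∀ i, f (i + 1) = g i := fun i => by simp [f]
  have hup : ∀ i ≤ r, (f i : ℝ) ≤ s + L i := by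
    intro i hi
    rcases Nat.eq_zero_or_pos i with h | h
    · subst h; rw [hf0]; linarith [hL0 0]
    · obtain ⟨j, rfl⟩ : ∃ j, i = j + 1 := ⟨i - 1, by omega⟩
      rw [hfs]
      exact (hg j (by omega)).2.2
  have hlow : ∀ i < r, (s : ℝ) + L i < f (i + 1) := by
    intro i hi
    rw [hfs]
    exact (hg i hi).2.1
  have hlt : ∀ i j, i < j → j ≤ r → f i < f j := by
    intro i j hij hj
    obtain ⟨j', rfl⟩ : ∃ j', j = j' + 1 := ⟨j - 1, by omega⟩
    have h1 := hup i (by omega)
    have h2 := hlow j' (by omega)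
    have h3 : L i ≤ L j' := hLm (by omega)
    have : (f i : ℝ) < f (j' + 1) := by linarith
    exact_mod_cast this
  have hmem : ∀ i ≤ r, f i ∈ S.filter (fun n : ℕ => (n : ℝ) ≤ s + L r) := by
    intro i hi
    rw [Finset.mem_filter]
    refine ⟨?_, ?_⟩
    · rcases Nat.eq_zero_or_pos i with h | h
      · subst h; rw [hf0]; exact hsS
      · obtain ⟨j, rfl⟩ : ∃ j, i = j + 1 := ⟨i - 1, by omega⟩
        rw [hfs]
        exact (hg j (by omega)).1
    · have h1 := hup i hi
      have h2 : L i ≤ L r := hLm hi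
      linarith
  have hc : (Finset.range (r + 1)).card ≤ (S.filter (fun n : ℕ => (n : ℝ) ≤ s + L r)).card := by
    apply Finset.card_le_card_of_injOn f
    · intro i hi
      rw [Finset.mem_coe, Finset.mem_range] at hi
      exact hmem i (by omega)
    · intro i hi j hj hij
      rw [Finset.mem_coe, Finset.mem_range] at hi hj
      rcases lt_trichotomy i j with h | h | h
      · have := hlt i j h (by omega); omega
      · exact h
      · have := hlt j i h (by omega); omega
  rw [Finset.card_range] at hc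
  omega

/-- **Few terms.** A sum of distinct factorials whose smallest index `s` is large and which has at
most `r` indices below `s + s / (log s) ^ A` is exactly divisible by some prime. -/
theorem few_terms (r A : ℕ) : ∃ s₀ : ℕ, ∀ (S : Finset ℕ) (s : ℕ), s ∈ S → s₀ ≤ s →
    (∀ n ∈ S, s ≤ n) →
    (S.filter (fun n : ℕ => (n : ℝ) ≤ s + s / Real.log s ^ A)).card ≤ r →
    ∃ p, p.Prime ∧ p ∣ fsum S ∧ ¬ p ^ 2 ∣ fsum S := by
  obtain ⟨C, hC, hpnt⟩ := th_pnt (2 * r + A + 2)
  obtain ⟨s₀, hs₀⟩ := ev_cond (max 10 (C * 2 ^ (2 * r + A + 4))) (2 * r + A + 1)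
  refine ⟨s₀, fun S s hsS hs hmin hcard => ?_⟩
  obtain ⟨hK, hpow⟩ := hs₀ s hs
  by_contra hcon
  push Not at hcon
  set ell : ℝ := Real.log s with hell
  have hell10 : 10 ≤ ell := (le_max_left _ _).trans hK
  have hellC : C * 2 ^ (2 * r + A + 4) ≤ ell := (le_max_right _ _).trans hK
  have hell0 : 0 < ell := by linarith
  have hs1 : (1 : ℝ) ≤ s := by
    by_contra hc
    push Not at hc
    have h1 : s = 0 := by
      have : s < 1 := by exact_mod_cast hc
      omega
    rw [hell, h1] at hell10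
    simp at hell10
    linarith
  have hs0 : (0 : ℝ) < s := by linarith
  have hsell : ell < s := by
    have := Real.log_lt_sub_one_of_pos hs0 (by
      intro h
      rw [hell, h] at hell10
      simp at hell10
      linarith)
    linarith
  -- all primes up to `s` divide twice
  have hall : ∀ p : ℕ, p.Prime → p ≤ s → p ^ 2 ∣ fsum S := by
    intro p hp hps
    apply hcon p hp
    exact Finset.dvd_sum fun n hn => (hp.dvd_factorial).2 (hps.trans (hmin n hn))
  -- the scales
  set L : ℕ → ℝ := fun i => s / ell ^ (2 * r + A + 1) * ell ^ (2 * i) with hLdef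
  have hL0pos : 0 < (s : ℝ) / ell ^ (2 * r + A + 1) := by positivity
  have hLpos : ∀ i, 0 < L i := fun i => by simp only [hLdef]; positivity
  have hell1 : (1 : ℝ) ≤ ell := by linarith
  have hLmono : Monotone L := by
    intro i j hij
    simp only [hLdef]
    apply mul_le_mul_of_nonneg_left _ hL0pos.le
    exact pow_le_pow_right₀ hell1 (by omega)
  have hLr : L r < s := by
    simp only [hLdef]
    have h1 : (s : ℝ) / ell ^ (2 * r + A + 1) * ell ^ (2 * r) = s / ell ^ (A + 1) := by
      rw [show 2 * r + A + 1 = 2 * r + (A + 1) by ring, pow_add]; field_simp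
    rw [h1, div_lt_iff₀ (by positivity)]
    have h2 : (1 : ℝ) < ell ^ (A + 1) := one_lt_pow₀ (by linarith) (by omega)
    nlinarith
  have hLr' : L r ≤ s / ell ^ A := by
    simp only [hLdef]
    have h1 : (s : ℝ) / ell ^ (2 * r + A + 1) * ell ^ (2 * r) = s / ell ^ (A + 1) := by
      rw [show 2 * r + A + 1 = 2 * r + (A + 1) by ring, pow_add]; field_simp
    rw [h1]
    apply div_le_div_of_nonneg_left hs0.le (by positivity)
    exact pow_le_pow_right₀ hell1 (by omega)
  have hLsucc : ∀ i, L (i + 1) = ell ^ 2 * L i := by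
    intro i
    simp only [hLdef]
    rw [show 2 * (i + 1) = 2 * i + 2 by ring, pow_add]; ring
  have hcard' : (S.filter (fun n : ℕ => (n : ℝ) ≤ s + L r)).card ≤ r := by
    refine (Finset.card_le_card ?_).trans hcard
    intro n hn
    rw [Finset.mem_filter] at hn ⊢
    exact ⟨hn.1, by linarith [hn.2]⟩
  obtain ⟨i, hi, hgap⟩ := exists_gap hsS hcard' hLpos hLmono
  have hLi : 0 < L i := hLpos i
  have hLiL0 : (s : ℝ) / ell ^ (2 * r + A + 1) ≤ L i := by
    have := hLmono (Nat.zero_le i)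
    simpa [hLdef] using this
  have hLi1 : 1 ≤ L i := by
    refine le_trans ?_ hLiL0
    rw [le_div_iff₀ (by positivity), one_mul]
    exact hpow
  have hLi1s : L (i + 1) < s := lt_of_le_of_lt (hLmono (by omega)) hLr
  have hLis : L i < s := lt_of_le_of_lt (hLmono (by omega)) hLr
  set l : ℕ := ⌊L i⌋₊ with hldef
  have hl1 : (l : ℝ) ≤ L i := Nat.floor_le hLi.le
  have hl2 : L i < l + 1 := Nat.lt_floor_add_one _
  have hls : l < s := by
    have : (l : ℝ) < s := by linarith
    exact_mod_cast this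
  set a : ℝ := (s + L i) / 2 with hadef
  set b : ℝ := (s + L (i + 1)) / 2 with hbdef
  have hab : a ≤ b := by
    have := hLmono (show i ≤ i + 1 by omega)
    rw [hadef, hbdef]; linarith
  set P := (Finset.Icc 1 ⌊b⌋₊).filter (fun p : ℕ => p.Prime ∧ a < (p : ℝ)) with hPdef
  have hb0 : 0 ≤ b := by rw [hbdef]; have := hLpos (i + 1); positivity
  have ha0 : 0 ≤ a := by rw [hadef]; positivity
  have hPdvd : ∀ p ∈ P, p ∣ T S s (s + l) := by
    intro p hp
    rw [hPdef, Finset.mem_filter, Finset.mem_Icc] at hp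
    obtain ⟨⟨hp1, hp2⟩, hp3, hp4⟩ := hp
    have hp5 : (p : ℝ) ≤ b := (Nat.le_floor_iff hb0).1 hp2
    have hps : p ≤ s := by
      have : (p : ℝ) ≤ s := by rw [hbdef] at hp5; linarith
      exact_mod_cast this
    have h2 : s < 2 * p := by
      have : (s : ℝ) < 2 * p := by rw [hadef] at hp4; linarith
      exact_mod_cast this
    refine dvd_T hp3 hmin hps h2 ?_ (hall p hp3 hps)
    intro n hn hln
    have h3 : (s : ℝ) + L i < n := by
      have : ((s + l + 1 : ℕ) : ℝ) ≤ n := by exact_mod_cast hln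
      push_cast at this
      linarith
    have h4 := hgap n hn h3
    have : (2 * p : ℝ) ≤ n := by rw [hbdef] at hp5; linarith
    exact_mod_cast this
  have hprod : ∏ p ∈ P, p ≤ T S s (s + l) := by
    apply Nat.le_of_dvd (T_pos hsS (by omega))
    apply Finset.prod_primes_dvd
    · intro p hp
      rw [hPdef, Finset.mem_filter] at hp
      exact hp.2.1.prime
    · exact hPdvd
  have hsum : ∑ p ∈ P, Real.log (p : ℝ) ≤ (l + 1) * Real.log (2 * s) := by
    have h1 : ∑ p ∈ P, Real.log (p : ℝ) = Real.log ((∏ p ∈ P, p : ℕ) : ℝ) := by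
      rw [Nat.cast_prod, Real.log_prod]
      intro p hp
      rw [hPdef, Finset.mem_filter] at hp
      have := hp.2.1.pos
      exact_mod_cast this.ne'
    rw [h1]
    have h2 : ((∏ p ∈ P, p : ℕ) : ℝ) ≤ (2 * s : ℝ) ^ (l + 1) := by
      have h3 := hprod.trans (T_le hmin hls)
      have h4 : ((∏ p ∈ P, p : ℕ) : ℝ) ≤ (((2 * s) ^ (l + 1) : ℕ) : ℝ) := by exact_mod_cast h3
      refine h4.trans (le_of_eq ?_)
      push_cast; ring
    have h5 : (0 : ℝ) < ((∏ p ∈ P, p : ℕ) : ℝ) := by
      have : 0 < ∏ p ∈ P, p := by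
        apply Finset.prod_pos
        intro p hp
        rw [hPdef, Finset.mem_filter] at hp
        exact hp.2.1.pos
      exact_mod_cast this
    calc Real.log ((∏ p ∈ P, p : ℕ) : ℝ) ≤ Real.log ((2 * s : ℝ) ^ (l + 1)) :=
          Real.log_le_log h5 h2
      _ = (l + 1) * Real.log (2 * s) := by rw [Real.log_pow]; push_cast; ring
  rw [← th_diff ha0 hab] at hsum
  -- lower bound
  have hlog2 : Real.log 2 ≤ 1 := by
    have := Real.log_two_lt_d9; linarith
  have hhalf : Real.log (s / 2) = ell - Real.log 2 := by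
    rw [Real.log_div hs0.ne' (by norm_num)]
  have has : (s : ℝ) / 2 ≤ a := by rw [hadef]; linarith
  have hbs : (s : ℝ) / 2 ≤ b := has.trans hab
  have hs6 : (6 : ℝ) ≤ s := by linarith
  have hb_le : b ≤ s := by rw [hbdef]; linarith
  have ha_le : a ≤ s := hab.trans hb_le
  have herr : ∀ x : ℝ, (s : ℝ) / 2 ≤ x → x ≤ s →
      C * x / Real.log x ^ (2 * r + A + 2) ≤ C * 2 ^ (2 * r + A + 2) * (s / ell ^ (2 * r + A + 2)) := by
    intro x hx1 hx2
    have h1 : ell / 2 ≤ Real.log x := by
      have h2 : Real.log (s / 2) ≤ Real.log x := Real.log_le_log (by linarith) hx1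
      rw [hhalf] at h2
      linarith
    have h3 : (ell / 2) ^ (2 * r + A + 2) ≤ Real.log x ^ (2 * r + A + 2) :=
      pow_le_pow_left₀ (by linarith) h1 _
    calc C * x / Real.log x ^ (2 * r + A + 2) ≤ C * s / (ell / 2) ^ (2 * r + A + 2) := by
          apply div_le_div₀ (by positivity) _ (by positivity) h3
          exact mul_le_mul_of_nonneg_left hx2 hC.le
      _ = C * 2 ^ (2 * r + A + 2) * (s / ell ^ (2 * r + A + 2)) := by
          rw [div_pow]; field_simp
  have hthb := (abs_le.1 (hpnt b (by linarith))).1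
  have htha := (abs_le.1 (hpnt a (by linarith))).2
  have e1 := herr a has ha_le
  have e2 := herr b hbs hb_le
  have hsm : (s : ℝ) / ell ^ (2 * r + A + 2) ≤ L i / ell := by
    rw [le_div_iff₀ hell0]
    refine le_trans (le_of_eq ?_) hLiL0
    rw [show 2 * r + A + 2 = (2 * r + A + 1) + 1 by ring, pow_succ ell (2 * r + A + 1)]
    field_simp
  have hba : b - a = (ell ^ 2 - 1) / 2 * L i := by
    rw [hbdef, hadef, hLsucc]; ring
  have hC2 : C * 2 ^ (2 * r + A + 2) * ((s : ℝ) / ell ^ (2 * r + A + 2)) ≤ L i / 4 := by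
    calc C * 2 ^ (2 * r + A + 2) * ((s : ℝ) / ell ^ (2 * r + A + 2))
        ≤ C * 2 ^ (2 * r + A + 2) * (L i / ell) := mul_le_mul_of_nonneg_left hsm (by positivity)
      _ = (C * 2 ^ (2 * r + A + 4)) / ell * (L i / 4) := by
          rw [show 2 * r + A + 4 = (2 * r + A + 2) + 2 by ring, pow_add (2 : ℝ) (2 * r + A + 2) 2]
          field_simp
          norm_num
      _ ≤ 1 * (L i / 4) := by
          apply mul_le_mul_of_nonneg_right _ (by positivity)
          rw [div_le_one hell0]; exact hellC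
      _ = L i / 4 := one_mul _
  have hlow : (ell ^ 2 - 1) / 2 * L i - L i / 2 ≤ th b - th a := by
    rw [← hba]; linarith
  have hlog2s : Real.log (2 * s) ≤ 2 * ell := by
    rw [Real.log_mul (by norm_num) hs0.ne']; linarith
  have hlog2s0 : 0 ≤ Real.log (2 * s) := Real.log_nonneg (by linarith)
  have hup : ((l : ℝ) + 1) * Real.log (2 * s) ≤ 4 * ell * L i := by
    calc ((l : ℝ) + 1) * Real.log (2 * s) ≤ (2 * L i) * (2 * ell) := by
          apply mul_le_mul _ hlog2s hlog2s0 (by positivity)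
          linarith
      _ = 4 * ell * L i := by ring
  have hfin : (ell ^ 2 - 1) / 2 * L i - L i / 2 ≤ 4 * ell * L i := hlow.trans (hsum.trans hup)
  have h6 : ((ell ^ 2 - 1) / 2 - 1 / 2 - 4 * ell) * L i ≤ 0 := by linarith
  have h7 : 0 < (ell ^ 2 - 1) / 2 - 1 / 2 - 4 * ell := by nlinarith
  have h8 := mul_pos h7 hLi
  linarith

/-- bounds for the successive indices -/
def Hb (s₀ : ℕ) : ℕ → ℕ
  | 0 => s₀
  | j + 1 => 2 * ((Hb s₀ j + 1) * (Hb s₀ j)!)

lemma le_Hb_succ (s₀ j : ℕ) : Hb s₀ j ≤ Hb s₀ (j + 1) := by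
  have h1 : 1 ≤ (Hb s₀ j)! := Nat.factorial_pos _
  show Hb s₀ j ≤ 2 * ((Hb s₀ j + 1) * (Hb s₀ j)!)
  nlinarith

/-- **Boundedly many terms.** Perfect powers that are sums of at most `r` factorials, no proper
initial part of which is a power with the same exponent: all indices are bounded. -/
theorem bounded_terms (r : ℕ) : ∃ H : ℕ, ∀ (S : Finset ℕ) (k m : ℕ), S.Nonempty → S.card ≤ r →
    2 ≤ k → fsum S = m ^ k →
    (∀ t : ℕ, (S.filter (fun n => n ≤ t)).Nonempty → (S.filter (fun n => ¬ n ≤ t)).Nonempty →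
      ¬ ∃ b : ℕ, fsum (S.filter (fun n => n ≤ t)) = b ^ k) →
    ∀ n ∈ S, n ≤ H := by
  obtain ⟨s₀, hs₀⟩ := few_terms r 0
  refine ⟨Hb s₀ r, fun S k m hne hcard hk hm hirr => ?_⟩
  -- the smallest element is bounded
  obtain ⟨s, hsS, hsmin⟩ : ∃ s ∈ S, ∀ n ∈ S, s ≤ n :=
    ⟨S.min' hne, S.min'_mem hne, fun n hn => S.min'_le n hn⟩
  have hsle : s ≤ s₀ := by
    by_contra hc
    obtain ⟨p, hp, hp1, hp2⟩ := hs₀ S s hsS (by omega) hsmin
      ((Finset.card_le_card (Finset.filter_subset _ _)).trans hcard)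
    rw [hm] at hp1 hp2
    have hpm : p ∣ m := hp.dvd_of_dvd_pow hp1
    exact hp2 ((pow_dvd_pow_of_dvd hpm 2).trans (pow_dvd_pow m hk))
  have key : ∀ j : ℕ, j + 1 ≤ (S.filter (fun n => n ≤ Hb s₀ j)).card ∨
      S.card ≤ (S.filter (fun n => n ≤ Hb s₀ j)).card := by
    intro j
    induction j with
    | zero =>
      left
      exact Finset.card_pos.2 ⟨s, Finset.mem_filter.2 ⟨hsS, hsle⟩⟩
    | succ j ih =>
      have hsub : S.filter (fun n => n ≤ Hb s₀ j) ⊆ S.filter (fun n => n ≤ Hb s₀ (j + 1)) := by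
        intro n hn
        rw [Finset.mem_filter] at hn ⊢
        exact ⟨hn.1, hn.2.trans (le_Hb_succ s₀ j)⟩
      rcases ih with ih | ih
      · by_cases hall : (S.filter (fun n => ¬ n ≤ Hb s₀ j)).Nonempty
        · left
          have hne0 : (S.filter (fun n => n ≤ Hb s₀ j)).Nonempty := Finset.card_pos.1 (by omega)
          by_contra hcon
          push Not at hcon
          have heq : S.filter (fun n => n ≤ Hb s₀ j) = S.filter (fun n => n ≤ Hb s₀ (j + 1)) :=
            Finset.eq_of_subset_of_card_le hsub (by omega)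
          apply hirr (Hb s₀ j) hne0 hall
          apply initial_pow (S₁ := S.filter (fun n => ¬ n ≤ Hb s₀ j)) (m := m) (fsum_pos hne0)
          · intro n hn
            rw [Finset.mem_filter] at hn
            have h1 : ¬ n ≤ Hb s₀ (j + 1) := by
              intro h2
              have h3 : n ∈ S.filter (fun n => n ≤ Hb s₀ (j + 1)) :=
                Finset.mem_filter.2 ⟨hn.1, h2⟩
              rw [← heq, Finset.mem_filter] at h3
              exact hn.2 h3.2
            have h4 : fsum (S.filter (fun n => n ≤ Hb s₀ j)) ≤ (Hb s₀ j + 1) * (Hb s₀ j)! :=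
              fsum_le fun n hn => (Finset.mem_filter.1 hn).2
            have h5 : Hb s₀ (j + 1) = 2 * ((Hb s₀ j + 1) * (Hb s₀ j)!) := rfl
            omega
          · rw [← fsum_split, hm]
        · right
          rw [Finset.not_nonempty_iff_eq_empty] at hall
          have h1 : S.filter (fun n => n ≤ Hb s₀ j) = S := by
            apply Finset.filter_true_of_mem
            intro n hn
            by_contra hc
            have : n ∈ S.filter (fun n => ¬ n ≤ Hb s₀ j) := Finset.mem_filter.2 ⟨hn, hc⟩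
            rw [hall] at this
            exact absurd this (Finset.notMem_empty n)
          calc S.card = (S.filter (fun n => n ≤ Hb s₀ j)).card := by rw [h1]
            _ ≤ _ := Finset.card_le_card hsub
      · right
        exact ih.trans (Finset.card_le_card hsub)
  have hfull : S.filter (fun n => n ≤ Hb s₀ r) = S := by
    apply Finset.eq_of_subset_of_card_le (Finset.filter_subset _ _)
    rcases key r with h | h <;> omega
  intro n hn
  rw [← hfull, Finset.mem_filter] at hn
  exact hn.2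

end Pool.Agent.PowFact
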